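import Pool.Agent.W250.RS.Stm2
import Pool.Agent.Helper309.Aff.A1

/-! Project RS2, part STG: Szemerédi–Trotter for rich lines and arbitrary point sets. -/

set_option autoImplicit false

namespace Pool.Agent.W622.RS2.STG

open Finset Pool.Agent.W250.RS

theorem main : S_STG := by
  classical
  intro V Ls j hj h0 h
  obtain ⟨e, he⟩ := Infinite.exists_notMem_finset
    ((V ×ˢ V).image (fun pq : (ℝ × ℝ) × (ℝ × ℝ) => (pq.2.1 - pq.1.1) / (pq.1.2 - pq.2.2)) ∪
      Ls.image (fun l : ℝ × ℝ => -1 / l.1))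
  rw [Finset.mem_union, not_or] at he
  obtain ⟨he1, he2⟩ := he
  have hm : ∀ l ∈ Ls, 1 + l.1 * e ≠ 0 := by
    intro l hl hc
    apply he2
    rw [Finset.mem_image]
    refine ⟨l, hl, ?_⟩
    have := h0 l hl
    rw [div_eq_iff this]
    linarith
  obtain ⟨φ, hφ⟩ : ∃ φ : ℝ × ℝ → ℝ × ℝ, ∀ p, φ p = (p.1 + e * p.2, p.2) := ⟨_, fun _ => rfl⟩
  obtain ⟨ψ, hψ⟩ : ∃ ψ : ℝ × ℝ → ℝ × ℝ, ∀ l, ψ l = (l.1 / (1 + l.1 * e), l.2 / (1 + l.1 * e)) :=
    ⟨_, fun _ => rfl⟩
  have hφi : Function.Injective φ := by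
    intro p q hpq
    rw [hφ, hφ, Prod.mk.injEq] at hpq
    obtain ⟨h1, h2⟩ := hpq
    rw [h2] at h1
    exact Prod.ext (by linarith) h2
  have hψi : Set.InjOn ψ (Ls : Set (ℝ × ℝ)) := by
    intro l hl l' hl' hll
    have a1 := hm l hl
    have a2 := hm l' hl'
    rw [hψ, hψ, Prod.mk.injEq, div_eq_div_iff a1 a2, div_eq_div_iff a1 a2] at hll
    obtain ⟨h1, h2⟩ := hll
    have h3 : l.1 = l'.1 := by linarith
    rw [h3] at h2
    exact Prod.ext h3 (mul_right_cancel₀ a2 h2)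
  have hx : ∀ p ∈ V.image φ, ∀ q ∈ V.image φ, p.1 = q.1 → p = q := by
    intro p hp q hq hpq
    rw [Finset.mem_image] at hp hq
    obtain ⟨p', hp', rfl⟩ := hp
    obtain ⟨q', hq', rfl⟩ := hq
    rw [hφ, hφ] at hpq
    simp only at hpq
    by_cases h2 : p'.2 = q'.2
    · rw [h2] at hpq
      have : p' = q' := Prod.ext (by linarith) h2
      rw [this]
    · exfalso
      apply he1
      rw [Finset.mem_image]
      refine ⟨(p', q'), Finset.mem_product.2 ⟨hp', hq'⟩, ?_⟩
      simp only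
      rw [div_eq_iff (sub_ne_zero.2 h2)]
      linarith
  have hr : ∀ L ∈ Ls.image ψ, j ≤ ((V.image φ).filter (fun p => Pool.Agent.Helper64.Gow.on L p)).card := by
    intro L hL
    rw [Finset.mem_image] at hL
    obtain ⟨l, hl, rfl⟩ := hL
    refine (h l hl).trans ?_
    rw [← Finset.card_image_of_injective _ hφi]
    apply Finset.card_le_card
    intro p hp
    rw [Finset.mem_image] at hp
    obtain ⟨q, hq, rfl⟩ := hp
    rw [Finset.mem_filter] at hq
    rw [Finset.mem_filter]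
    refine ⟨Finset.mem_image_of_mem _ hq.1, ?_⟩
    have a1 := hm l hl
    show (φ q).2 = (ψ l).1 * (φ q).1 + (ψ l).2
    rw [hφ, hψ]
    simp only
    have h3 := hq.2
    rw [div_mul_eq_mul_div, ← add_div, eq_div_iff a1]
    linear_combination h3
  have key := Pool.Agent.Helper309.Aff.st_rich hx hj (by convert hr)
  rw [Finset.card_image_of_injective _ hφi, Finset.card_image_of_injOn hψi] at key
  exact key

end Pool.Agent.W622.RS2.STG
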